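import Mathlib
import Pool.Agent.Helper325.BorsukUlam

set_option autoImplicit false

/-!
# The complete bipartite graph with 3 + 3 vertices on a convex surface

For six vectors `X i`, `A j` of a three-dimensional space there are always two of the nine cones
spanned by an `X i` and an `A j`, without a common generator, which meet outside of `0`. It follows
from the Borsuk-Ulam theorem in dimension 2.
-/

namespace Pool.Agent.Q157.IL

open Finset

/-- the median of three numbers -/
noncomputable def med (t : Fin 3 → ℝ) : ℝ := max (min (t 0) (t 1)) (min (max (t 0) (t 1)) (t 2))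

theorem med_neg (t : Fin 3 → ℝ) : med (-t) = - med t := by
  simp only [med, Pi.neg_apply]
  rcases le_total (t 0) (t 1) with h1 | h1 <;> rcases le_total (t 1) (t 2) with h2 | h2 <;>
    rcases le_total (t 0) (t 2) with h3 | h3 <;>
    simp [min_def, max_def, h1, h2, h3] <;> (try split_ifs) <;> (try linarith) 

theorem med_cont : Continuous med := by
  unfold med
  fun_prop

theorem med_zero {t : Fin 3 → ℝ} (h : med t = 0) :
    ∃ i k : Fin 3, i ≠ k ∧ 0 ≤ t i ∧ t k ≤ 0 ∧ ∀ l, l ≠ i → l ≠ k → t l = 0 := by
  unfold med at h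
  rcases le_total (t 0) (t 1) with h1 | h1 <;> rcases le_total (t 1) (t 2) with h2 | h2 <;>
    rcases le_total (t 0) (t 2) with h3 | h3 
  · rw [min_eq_left h1, max_eq_right h1, min_eq_left h2, max_eq_right h1] at h
    refine ⟨2, 0, by decide, by linarith, by linarith, ?_⟩
    intro l h4 h5
    fin_cases l
    · exact absurd rfl h5
    · exact h
    · exact absurd rfl h4
  · rw [min_eq_left h1, max_eq_right h1, min_eq_left h2, max_eq_right h1] at h
    refine ⟨2, 0, by decide, by linarith, by linarith, ?_⟩
    intro l h4 h5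
    fin_cases l
    · exact absurd rfl h5
    · exact h
    · exact absurd rfl h4
  · rw [min_eq_left h1, max_eq_right h1, min_eq_right h2, max_eq_right h3] at h
    refine ⟨1, 0, by decide, by linarith, by linarith, ?_⟩
    intro l h4 h5
    fin_cases l
    · exact absurd rfl h5
    · exact absurd rfl h4
    · exact h
  · rw [min_eq_left h1, max_eq_right h1, min_eq_right h2, max_eq_left h3] at h
    refine ⟨1, 2, by decide, by linarith, by linarith, ?_⟩
    intro l h4 h5
    fin_cases l
    · exact h
    · exact absurd rfl h4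
    · exact absurd rfl h5
  · rw [min_eq_right h1, max_eq_left h1, min_eq_left h3, max_eq_right h1] at h
    refine ⟨2, 1, by decide, by linarith, by linarith, ?_⟩
    intro l h4 h5
    fin_cases l
    · exact h
    · exact absurd rfl h5
    · exact absurd rfl h4
  · rw [min_eq_right h1, max_eq_left h1, min_eq_right h3, max_eq_right h2] at h
    refine ⟨0, 1, by decide, by linarith, by linarith, ?_⟩
    intro l h4 h5
    fin_cases l
    · exact absurd rfl h4
    · exact absurd rfl h5
    · exact h
  · rw [min_eq_right h1, max_eq_left h1, min_eq_left h3, max_eq_right h1] at h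
    refine ⟨2, 1, by decide, by linarith, by linarith, ?_⟩
    intro l h4 h5
    fin_cases l
    · exact h
    · exact absurd rfl h5
    · exact absurd rfl h4
  · rw [min_eq_right h1, max_eq_left h1, min_eq_right h3, max_eq_left h2] at h
    refine ⟨0, 2, by decide, by linarith, by linarith, ?_⟩
    intro l h4 h5
    fin_cases l
    · exact absurd rfl h4
    · exact h
    · exact absurd rfl h5

theorem sum_two {E : Type*} [AddCommGroup E] [Module ℝ E] (t : Fin 3 → ℝ) (X : Fin 3 → E)
    {i k : Fin 3} (hik : i ≠ k) (h : ∀ l, l ≠ i → l ≠ k → t l = 0) :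
    ∑ l, t l • X l = t i • X i + t k • X k := by
  rw [← Finset.sum_pair (f := fun l => t l • X l) hik]
  symm
  apply Finset.sum_subset (Finset.subset_univ _)
  intro l _ hl
  simp only [Finset.mem_insert, Finset.mem_singleton, not_or] at hl
  rw [h l hl.1 hl.2, zero_smul]

/-- **Crossing lemma.** -/
theorem k33 {E : Type*} [AddCommGroup E] [Module ℝ E] [FiniteDimensional ℝ E]
    (hE : Module.finrank ℝ E = 3) (X A : Fin 3 → E) :
    ∃ i k : Fin 3, i ≠ k ∧ ∃ j l : Fin 3, j ≠ l ∧ ∃ α β γ δ : ℝ, 0 ≤ α ∧ 0 ≤ β ∧ 0 ≤ γ ∧ 0 ≤ δ ∧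
      0 < α + β + γ + δ ∧ α • X i + β • A j = γ • X k + δ • A l := by
  classical
  let L : ((Fin 3 → ℝ) × (Fin 3 → ℝ)) →ₗ[ℝ] E :=
    LinearMap.coprod (Fintype.linearCombination ℝ X) (Fintype.linearCombination ℝ A)
  have hker : 3 ≤ Module.finrank ℝ (LinearMap.ker L) := by
    have h1 := LinearMap.finrank_range_add_finrank_ker L
    have h2 : Module.finrank ℝ ((Fin 3 → ℝ) × (Fin 3 → ℝ)) = 6 := by
      rw [Module.finrank_prod]; simp
    have h3 : Module.finrank ℝ (LinearMap.range L) ≤ 3 :=
      (Submodule.finrank_le _).trans hE.le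
    omega
  let b := Module.finBasis ℝ (LinearMap.ker L)
  let e : Fin 3 → Fin (Module.finrank ℝ (LinearMap.ker L)) := Fin.castLE hker
  have hli : LinearIndependent ℝ (fun i => b (e i)) :=
    b.linearIndependent.comp e (Fin.castLE_injective hker)
  let T : (Fin 3 → ℝ) →ₗ[ℝ] LinearMap.ker L := Fintype.linearCombination ℝ (fun i => b (e i))
  have hT : Function.Injective T := hli.fintypeLinearCombination_injective
  let p1 : (Fin 3 → ℝ) →ₗ[ℝ] (Fin 3 → ℝ) :=
    (LinearMap.fst ℝ _ _).comp ((LinearMap.ker L).subtype.comp T)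
  let p2 : (Fin 3 → ℝ) →ₗ[ℝ] (Fin 3 → ℝ) :=
    (LinearMap.snd ℝ _ _).comp ((LinearMap.ker L).subtype.comp T)
  have c1 : Continuous p1 := p1.continuous_of_finiteDimensional
  have c2 : Continuous p2 := p2.continuous_of_finiteDimensional
  obtain ⟨t, htK, ht⟩ := Helper325.BorsukUlam.borsuk_ulam 2
    (fun t => ![med (p1 t), med (p2 t)])
    (by
      refine continuous_pi fun i => ?_
      fin_cases i
      · exact med_cont.comp c1
      · exact med_cont.comp c2)
    (by
      intro t
      ext i
      fin_cases i
      · simp [med_neg]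
      · simp [med_neg])
  have ht1 : med (p1 t) = 0 := by simpa using congrFun ht 0
  have ht2 : med (p2 t) = 0 := by simpa using congrFun ht 1
  have ht0 : t ≠ 0 := by
    rintro rfl
    simp [Helper325.BorsukUlam.K] at htK
  obtain ⟨i, k, hik, hi, hk, hl1⟩ := med_zero ht1
  obtain ⟨j, l, hjl, hj, hl, hl2⟩ := med_zero ht2
  have hL : L (p1 t, p2 t) = 0 := by
    have := (T t).2
    rw [LinearMap.mem_ker] at this
    exact this
  have hL2 : ∑ l, (p1 t) l • X l + ∑ l, (p2 t) l • A l = 0 := by
    simpa [L, LinearMap.coprod_apply, Fintype.linearCombination_apply] using hL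
  rw [sum_two _ _ hik hl1, sum_two _ _ hjl hl2] at hL2
  refine ⟨i, k, hik, j, l, hjl, p1 t i, p2 t j, -p1 t k, -p2 t l, hi, hj, by linarith, by linarith,
    ?_, ?_⟩
  · by_contra hcon
    have h1 : p1 t i = 0 := by linarith
    have h2 : p2 t j = 0 := by linarith
    have h3 : p1 t k = 0 := by linarith
    have h4 : p2 t l = 0 := by linarith
    have e1 : p1 t = 0 := by
      ext m
      by_cases hm1 : m = i
      · rw [hm1]; exact h1
      · by_cases hm2 : m = k
        · rw [hm2]; exact h3
        · exact hl1 m hm1 hm2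
    have e2 : p2 t = 0 := by
      ext m
      by_cases hm1 : m = j
      · rw [hm1]; exact h2
      · by_cases hm2 : m = l
        · rw [hm2]; exact h4
        · exact hl2 m hm1 hm2
    apply ht0
    apply hT
    rw [map_zero]
    apply Subtype.ext
    exact Prod.ext e1 e2
  · rw [neg_smul, neg_smul]
    have : p1 t i • X i + p2 t j • A j - (-(p1 t k • X k) + -(p2 t l • A l)) = 0 := by
      rw [← hL2]; abel
    exact sub_eq_zero.1 this

end Pool.Agent.Q157.IL
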