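import Mathlib
import Pool.Agent.Q157.IL.K33

set_option autoImplicit false

/-!
# The combinatorial core
-/

namespace Pool.Agent.Q157.IL

open Finset

variable {E : Type*} [AddCommGroup E] [Module ℝ E]

/-- `x i` and `a j` are in a common face (`f = 1`, `f ∈ F`) if and only if `i ≠ j`. -/
structure Cfg {ι : Type*} (F : Set (E →ₗ[ℝ] ℝ)) (x a : ι → E) : Prop where
  hx : ∀ f ∈ F, ∀ i, f (x i) ≤ 1
  ha : ∀ f ∈ F, ∀ i, f (a i) ≤ 1
  h1 : ∀ i j, i ≠ j → ∃ f ∈ F, f (x i) = 1 ∧ f (a j) = 1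
  h2 : ∀ i, ∀ f ∈ F, f (x i) = 1 → f (a i) = 1 → False

variable {ι : Type*} {F : Set (E →ₗ[ℝ] ℝ)} {x a : ι → E}

/-- no `x q` is between some `x p` and another point -/
theorem Cfg.xbet (h : Cfg F x a) {p q : ι} (hpq : p ≠ q) {y : E} (hy : ∀ f ∈ F, f y ≤ 1)
    {s t : ℝ} (hs : 0 < s) (ht : 0 ≤ t) (he : s • x p + t • y = (s + t) • x q) : False := by
  obtain ⟨f, hf, h3, h4⟩ := h.h1 q p hpq.symm
  have h5 := congrArg f he
  simp only [map_add, map_smul, smul_eq_mul, h3] at h5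
  have h6 := h.hx f hf p
  have h7 := hy f hf
  have h8 : f (x p) = 1 := by
    apply le_antisymm h6
    by_contra hc
    push Not at hc
    nlinarith
  exact h.h2 p f hf h8 h4

/-- no `a k` is between some `a j` and another point -/
theorem Cfg.abet (h : Cfg F x a) {j k : ι} (hjk : j ≠ k) {y : E} (hy : ∀ f ∈ F, f y ≤ 1)
    {s t : ℝ} (hs : 0 < s) (ht : 0 ≤ t) (he : s • a j + t • y = (s + t) • a k) : False := by
  obtain ⟨f, hf, h3, h4⟩ := h.h1 j k hjk
  have h5 := congrArg f he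
  simp only [map_add, map_smul, smul_eq_mul, h4] at h5
  have h6 := h.ha f hf j
  have h7 := hy f hf
  have h8 : f (a j) = 1 := by
    apply le_antisymm h6
    by_contra hc
    push Not at hc
    nlinarith
  exact h.h2 j f hf h3 h8

theorem Cfg.xne (h : Cfg F x a) {p q : ι} (hpq : p ≠ q) : x p ≠ x q := by
  intro he
  refine h.xbet hpq (y := x p) (fun f hf => h.hx f hf p) one_pos (le_refl (0:ℝ)) ?_
  rw [he]; simp

theorem Cfg.ane (h : Cfg F x a) {p q : ι} (hpq : p ≠ q) : a p ≠ a q := by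
  intro he
  refine h.abet hpq (y := a p) (fun f hf => h.ha f hf p) one_pos (le_refl (0:ℝ)) ?_
  rw [he]; simp

/-- the analysis of a crossing -/
theorem Cfg.cross (h : Cfg F x a) {p q j k : ι} (hpq : p ≠ q) (hjk : j ≠ k) (hpj : p ≠ j)
    (hqk : q ≠ k) (n1 : x q ≠ a j) (n2 : x p ≠ a k) {α β γ δ : ℝ} (hα : 0 ≤ α) (hβ : 0 ≤ β)
    (hγ : 0 ≤ γ) (hδ : 0 ≤ δ) (hpos : 0 < α + β + γ + δ)
    (he : α • x p + β • a j = γ • x q + δ • a k) :
    0 < α ∧ 0 < β ∧ 0 < γ ∧ 0 < δ ∧ α + β = γ + δ ∧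
      ∃ f ∈ F, f (x p) = 1 ∧ f (x q) = 1 ∧ f (a j) = 1 ∧ f (a k) = 1 := by
  obtain ⟨f, hf, f1, f2⟩ := h.h1 p j hpj
  obtain ⟨g, hg, g1, g2⟩ := h.h1 q k hqk
  have e1 := congrArg f he
  have e2 := congrArg g he
  simp only [map_add, map_smul, smul_eq_mul, f1, f2, g1, g2, mul_one] at e1 e2
  have fx := h.hx f hf q
  have fa := h.ha f hf k
  have gx := h.hx g hg p
  have ga := h.ha g hg j
  have hsum : α + β = γ + δ := by
    apply le_antisymm
    · rw [e1]; nlinarith
    · rw [← e2]; nlinarith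
  have hab : 0 < α + β := by linarith
  have hcd : 0 < γ + δ := by linarith
  have hα' : 0 < α := by
    rcases hα.lt_or_eq with h3 | h3
    · exact h3
    · exfalso
      rw [← h3, zero_smul, zero_add] at he
      rcases hδ.lt_or_eq with h4 | h4
      · refine h.abet hjk.symm (fun f hf => h.hx f hf q) h4 hγ ?_
        rw [add_comm, ← he]
        congr 1; linarith
      · rw [← h4, zero_smul, add_zero] at he
        have h5 : β = γ := by linarith
        have h6 : β ≠ 0 := by intro h6; linarith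
        rw [← h5] at he
        exact n1 (smul_right_injective E h6 he).symm
  have hβ' : 0 < β := by
    rcases hβ.lt_or_eq with h3 | h3
    · exact h3
    · exfalso
      rw [← h3, zero_smul, add_zero] at he
      rcases hγ.lt_or_eq with h4 | h4
      · refine h.xbet hpq.symm (fun f hf => h.ha f hf k) h4 hδ ?_
        rw [← he]
        congr 1; linarith
      · rw [← h4, zero_smul, zero_add] at he
        have h5 : α = δ := by linarith
        have h6 : α ≠ 0 := by intro h6; linarith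
        rw [← h5] at he
        exact n2 (smul_right_injective E h6 he)
  have hγ' : 0 < γ := by
    rcases hγ.lt_or_eq with h3 | h3
    · exact h3
    · exfalso
      rw [← h3, zero_smul, zero_add] at he
      refine h.abet hjk (fun f hf => h.hx f hf p) hβ' hα ?_
      rw [add_comm, he]
      congr 1; linarith
  have hδ' : 0 < δ := by
    rcases hδ.lt_or_eq with h3 | h3
    · exact h3
    · exfalso
      rw [← h3, zero_smul, add_zero] at he
      refine h.xbet hpq (fun f hf => h.ha f hf j) hα' hβ ?_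
      rw [he]
      congr 1; linarith
  refine ⟨hα', hβ', hγ', hδ', hsum, f, hf, f1, ?_, f2, ?_⟩
  · apply le_antisymm fx
    by_contra hc
    push Not at hc
    nlinarith
  · apply le_antisymm fa
    by_contra hc
    push Not at hc
    nlinarith

/-- no three of the `a i` are collinear -/
theorem Cfg.noncol (h : Cfg F x a) {i j k : ι} (hij : i ≠ j) (hik : i ≠ k) (hjk : j ≠ k)
    {α β γ : ℝ} (hs : α + β + γ = 0) (h0 : ¬ (α = 0 ∧ β = 0 ∧ γ = 0))
    (he : α • a i + β • a j + γ • a k = 0) : False := by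
  -- a point with positive coefficient, the others nonpositive, is between
  have key : ∀ {i j k : ι}, i ≠ j → i ≠ k → j ≠ k → ∀ {α β γ : ℝ}, α + β + γ = 0 → 0 < α →
      β ≤ 0 → γ ≤ 0 → α • a i + β • a j + γ • a k = 0 → False := by
    intro i j k hij hik hjk α β γ hs hα hβ hγ he
    rcases hβ.lt_or_eq with h3 | h3
    · refine h.abet hij.symm (y := a k) (fun f hf => h.ha f hf k) (neg_pos.2 h3)
        (neg_nonneg.2 hγ) ?_
      have : (-β + -γ) = α := by linarith
      rw [this, neg_smul, neg_smul]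
      have h5 : α • a i - (-(β • a j) + -(γ • a k)) = 0 := by rw [← he]; abel
      exact (sub_eq_zero.1 h5).symm
    · have h4 : γ < 0 := by linarith
      refine h.abet hik.symm (y := a j) (fun f hf => h.ha f hf j) (neg_pos.2 h4)
        (neg_nonneg.2 hβ) ?_
      have : (-γ + -β) = α := by linarith
      rw [this, neg_smul, neg_smul]
      have h5 : α • a i - (-(γ • a k) + -(β • a j)) = 0 := by rw [← he]; abel
      exact (sub_eq_zero.1 h5).symm
  have key2 : ∀ {α β γ : ℝ}, α + β + γ = 0 → α • a i + β • a j + γ • a k = 0 →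
      (0 < α ∧ β ≤ 0 ∧ γ ≤ 0 ∨ 0 < β ∧ α ≤ 0 ∧ γ ≤ 0 ∨ 0 < γ ∧ α ≤ 0 ∧ β ≤ 0) → False := by
    intro α β γ hs he hc
    rcases hc with ⟨h3, h4, h5⟩ | ⟨h3, h4, h5⟩ | ⟨h3, h4, h5⟩
    · exact key hij hik hjk hs h3 h4 h5 he
    · exact key hij.symm hjk hik (by linarith) h3 h4 h5 (by rw [← he]; abel)
    · exact key hik.symm hjk.symm hij (by linarith) h3 h4 h5 (by rw [← he]; abel)
  have hneg : (-α) • a i + (-β) • a j + (-γ) • a k = 0 := by
    rw [neg_smul, neg_smul, neg_smul]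
    have : -(α • a i) + -(β • a j) + -(γ • a k) = -(α • a i + β • a j + γ • a k) := by abel
    rw [this, he, neg_zero]
  rcases le_or_gt α 0 with a1 | a1 <;> rcases le_or_gt β 0 with b1 | b1 <;>
    rcases le_or_gt γ 0 with c1 | c1
  · exact h0 ⟨by linarith, by linarith, by linarith⟩
  · exact key2 hs he (Or.inr (Or.inr ⟨c1, a1, b1⟩))
  · exact key2 hs he (Or.inr (Or.inl ⟨b1, a1, c1⟩))
  · exact key2 (by linarith) hneg (Or.inl ⟨by linarith, by linarith, by linarith⟩)
  · exact key2 hs he (Or.inl ⟨a1, b1, c1⟩)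
  · exact key2 (by linarith) hneg (Or.inr (Or.inl ⟨by linarith, by linarith, by linarith⟩))
  · exact key2 (by linarith) hneg (Or.inr (Or.inr ⟨by linarith, by linarith, by linarith⟩))
  · exfalso; linarith

/-- sign patterns of three vectors and three functionals -/
theorem signs {g₁ g₂ g₃ : E →ₗ[ℝ] ℝ} {u v w : E} {α β γ : ℝ}
    (h1 : g₁ (α • u + β • v + γ • w) = 0) (h2 : g₂ (α • u + β • v + γ • w) = 0)
    (h3 : g₃ (α • u + β • v + γ • w) = 0)
    (a1 : g₁ u = 0) (a2 : g₁ v < 0) (a3 : g₁ w < 0) (b1 : g₂ u < 0) (b2 : g₂ v = 0) (b3 : g₂ w < 0)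
    (c1 : g₃ u < 0) (c2 : g₃ v < 0) (c3 : g₃ w = 0) : α = 0 ∧ β = 0 ∧ γ = 0 := by
  simp only [map_add, map_smul, smul_eq_mul, a1, b2, c3, mul_zero, zero_add, add_zero] at h1 h2 h3
  -- β g₁v + γ g₁w = 0, α g₂u + γ g₂w = 0, α g₃u + β g₃v = 0
  have hβγ : β * γ ≤ 0 := by
    by_contra hc
    push Not at hc
    rcases pos_and_pos_or_neg_and_neg_of_mul_pos hc with ⟨h4, h5⟩ | ⟨h4, h5⟩ <;> nlinarith
  have hαγ : α * γ ≤ 0 := by
    by_contra hc
    push Not at hc
    rcases pos_and_pos_or_neg_and_neg_of_mul_pos hc with ⟨h4, h5⟩ | ⟨h4, h5⟩ <;> nlinarith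
  have hαβ : α * β ≤ 0 := by
    by_contra hc
    push Not at hc
    rcases pos_and_pos_or_neg_and_neg_of_mul_pos hc with ⟨h4, h5⟩ | ⟨h4, h5⟩ <;> nlinarith
  have e1 : β = 0 ↔ γ = 0 := by
    constructor
    · intro h; rw [h, zero_mul, zero_add] at h1
      exact (mul_eq_zero.1 h1).resolve_right a3.ne
    · intro h; rw [h, zero_mul, add_zero] at h1
      exact (mul_eq_zero.1 h1).resolve_right a2.ne
  have e2 : α = 0 ↔ γ = 0 := by
    constructor
    · intro h; rw [h, zero_mul, zero_add] at h2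
      exact (mul_eq_zero.1 h2).resolve_right b3.ne
    · intro h; rw [h, zero_mul, add_zero] at h2
      exact (mul_eq_zero.1 h2).resolve_right b1.ne
  by_cases hγ : γ = 0
  · exact ⟨e2.2 hγ, e1.2 hγ, hγ⟩
  · exfalso
    have hα : α ≠ 0 := fun h => hγ (e2.1 h)
    have hβ : β ≠ 0 := fun h => hγ (e1.1 h)
    rcases lt_or_gt_of_ne hα with h4 | h4 <;> rcases lt_or_gt_of_ne hβ with h5 | h5 <;>
      rcases lt_or_gt_of_ne hγ with h6 | h6 <;>
      first
        | exact absurd (mul_pos_of_neg_of_neg h4 h5) (not_lt.2 hαβ)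
        | exact absurd (mul_pos_of_neg_of_neg h4 h6) (not_lt.2 hαγ)
        | exact absurd (mul_pos_of_neg_of_neg h5 h6) (not_lt.2 hβγ)
        | exact absurd (mul_pos h4 h5) (not_lt.2 hαβ)
        | exact absurd (mul_pos h4 h6) (not_lt.2 hαγ)
        | exact absurd (mul_pos h5 h6) (not_lt.2 hβγ)

end Pool.Agent.Q157.IL
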