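import Mathlib
import Pool.Agent.Q157.IL.Core

set_option autoImplicit false
set_option linter.unusedSectionVars false

/-!
# Few points in every face
-/

namespace Pool.Agent.Q157.IL

open Finset

variable {E : Type*} [AddCommGroup E] [Module ℝ E] [FiniteDimensional ℝ E]

theorem eq_of_three (hE : Module.finrank ℝ E = 3) {f g : E →ₗ[ℝ] ℝ} {u v w : E}
    (hli : ∀ α β γ : ℝ, α • u + β • v + γ • w = 0 → α = 0 ∧ β = 0 ∧ γ = 0)
    (hu : f u = g u) (hv : f v = g v) (hw : f w = g w) : f = g := by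
  have h1 : LinearIndependent ℝ ![u, v, w] := by
    rw [Fintype.linearIndependent_iff]
    intro t ht
    rw [Fin.sum_univ_three] at ht
    obtain ⟨e1, e2, e3⟩ := hli (t 0) (t 1) (t 2) (by simpa using ht)
    intro i
    fin_cases i
    · exact e1
    · exact e2
    · exact e3
  have h2 := h1.span_eq_top_of_card_eq_finrank (by simp [hE])
  refine LinearMap.ext_on h2 ?_
  rintro y ⟨i, rfl⟩
  fin_cases i
  · exact hu
  · exact hv
  · exact hw

theorem dep4 (hE : Module.finrank ℝ E = 3) (u v w z : E) :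
    ∃ α β γ δ : ℝ, ¬ (α = 0 ∧ β = 0 ∧ γ = 0 ∧ δ = 0) ∧ α • u + β • v + γ • w + δ • z = 0 := by
  by_contra hcon
  have h1 : LinearIndependent ℝ ![u, v, w, z] := by
    rw [Fintype.linearIndependent_iff]
    intro t ht
    rw [Fin.sum_univ_four] at ht
    by_contra hne
    push Not at hne
    obtain ⟨i, hi⟩ := hne
    refine hcon ⟨t 0, t 1, t 2, t 3, ?_, by simpa using ht⟩
    rintro ⟨e0, e1, e2, e3⟩
    fin_cases i
    · exact hi e0
    · exact hi e1
    · exact hi e2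
    · exact hi e3
  have h2 := h1.fintype_card_le_finrank
  simp [hE] at h2

variable {ι : Type*} {F : Set (E →ₗ[ℝ] ℝ)} {x a : ι → E}

/-- a face is determined by three of the `a i` -/
theorem Cfg.uniq (h : Cfg F x a) (hE : Module.finrank ℝ E = 3) {j k l : ι} (hjk : j ≠ k)
    (hjl : j ≠ l) (hkl : k ≠ l) {f g : E →ₗ[ℝ] ℝ} (f1 : f (a j) = 1) (f2 : f (a k) = 1)
    (f3 : f (a l) = 1) (g1 : g (a j) = 1) (g2 : g (a k) = 1) (g3 : g (a l) = 1) : f = g := by
  refine eq_of_three hE (u := a j) (v := a k) (w := a l) ?_ (by rw [f1, g1]) (by rw [f2, g2])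
    (by rw [f3, g3])
  intro α β γ he
  have h1 := congrArg f he
  simp only [map_add, map_smul, smul_eq_mul, f1, f2, f3, mul_one, map_zero] at h1
  by_contra hcon
  exact h.noncol hjk hjl hkl h1 hcon he

/-- `j` and `k` are in a face, different from `I`, which contains some `x p`, `p ∈ I` -/
def Rel (F : Set (E →ₗ[ℝ] ℝ)) (x a : ι → E) (I : Finset ι) (j k : ι) : Prop :=
  j ≠ k ∧ ∃ g ∈ F, g (a j) = 1 ∧ g (a k) = 1 ∧ ∃ p ∈ I, g (x p) = 1

theorem Cfg.xlt (h : Cfg F x a) {f : E →ₗ[ℝ] ℝ} (hf : f ∈ F) {p : ι} (hp : f (a p) = 1) :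
    f (x p) < 1 :=
  lt_of_le_of_ne (h.hx f hf p) (fun h1 => h.h2 p f hf h1 hp)

/-- the centre of the `a i`, `i ∈ I` -/
noncomputable def cen (a : ι → E) (I : Finset ι) : E := (I.card : ℝ)⁻¹ • ∑ i ∈ I, a i

theorem cen_val {I : Finset ι} {f : E →ₗ[ℝ] ℝ} (hI : I.Nonempty) (h1 : ∀ i ∈ I, f (a i) = 1) :
    f (cen a I) = 1 := by
  have hc : (0:ℝ) < I.card := by exact_mod_cast hI.card_pos
  rw [cen, map_smul, map_sum, Finset.sum_congr rfl h1, Finset.sum_const, nsmul_eq_mul, mul_one,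
    smul_eq_mul, inv_mul_cancel₀ hc.ne']

theorem cen_le {I : Finset ι} {f : E →ₗ[ℝ] ℝ} (hI : I.Nonempty) (h1 : ∀ i, f (a i) ≤ 1) :
    f (cen a I) ≤ 1 := by
  have hc : (0:ℝ) < I.card := by exact_mod_cast hI.card_pos
  rw [cen, map_smul, map_sum, smul_eq_mul, inv_mul_le_iff₀ hc, mul_one]
  calc ∑ i ∈ I, f (a i) ≤ ∑ i ∈ I, (1:ℝ) := Finset.sum_le_sum fun i _ => h1 i
    _ = I.card := by simp

theorem cen_eq {I : Finset ι} {f : E →ₗ[ℝ] ℝ} (hI : I.Nonempty) (h1 : ∀ i, f (a i) ≤ 1)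
    (h2 : f (cen a I) = 1) : ∀ i ∈ I, f (a i) = 1 := by
  have hc : (0:ℝ) < I.card := by exact_mod_cast hI.card_pos
  rw [cen, map_smul, map_sum, smul_eq_mul, inv_mul_eq_iff_eq_mul₀ hc.ne', mul_one] at h2
  have h3 : ∑ i ∈ I, f (a i) = ∑ i ∈ I, (1:ℝ) := by rw [h2]; simp
  exact (Finset.sum_eq_sum_iff_of_le (fun i _ => h1 i)).1 h3

theorem Cfg.type1 (h : Cfg F x a) {f : E →ₗ[ℝ] ℝ} (hf : f ∈ F) {I : Finset ι}
    (hI : ∀ i ∈ I, f (a i) = 1) {p j k : ι} (hp : p ∈ I) (hj : j ∈ I) (hk : k ∈ I) (hpj : p ≠ j)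
    (hjk : j ≠ k) {α β γ δ : ℝ} (hα : 0 ≤ α) (hβ : 0 ≤ β) (hγ : 0 ≤ γ) (hδ : 0 ≤ δ)
    (hpos : 0 < α + β + γ + δ) (he : α • x p + β • a j = γ • cen a I + δ • a k) : False := by
  have hne : I.Nonempty := ⟨p, hp⟩
  obtain ⟨g, hg, g1, g2⟩ := h.h1 p j hpj
  have e1 := congrArg f he
  have e2 := congrArg g he
  simp only [map_add, map_smul, smul_eq_mul, cen_val hne hI, hI j hj, hI k hk, g1, g2,
    mul_one] at e1 e2
  have h3 := h.xlt hf (hI p hp)
  have h4 := cen_le hne (h.ha g hg)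
  have h5 := h.ha g hg k
  have hα0 : α = 0 := by
    by_contra hc
    have : 0 < α := lt_of_le_of_ne hα (Ne.symm hc)
    nlinarith
  rw [hα0, zero_smul, zero_add] at he
  rw [hα0] at e1 e2 hpos
  rcases hγ.lt_or_eq with h6 | h6
  · have h7 : g (cen a I) = 1 := by
      apply le_antisymm h4
      by_contra hc
      push Not at hc
      nlinarith
    exact h.h2 p g hg g1 (cen_eq hne (h.ha g hg) h7 p hp)
  · rw [← h6, zero_smul, zero_add] at he
    have h8 : β = δ := by linarith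
    have h9 : β ≠ 0 := by intro h9; linarith
    rw [← h8] at he
    exact h.ane hjk (smul_right_injective E h9 he)

theorem Cfg.type2 (h : Cfg F x a) {f : E →ₗ[ℝ] ℝ} (hf : f ∈ F) {I : Finset ι}
    (hI : ∀ i ∈ I, f (a i) = 1) {p q j k : ι} (hp : p ∈ I) (hq : q ∈ I) (hj : j ∈ I) (hk : k ∈ I)
    (hpq : p ≠ q) (hpj : p ≠ j) (hqk : q ≠ k)
    (hjk : j ≠ k) {α β γ δ : ℝ} (hα : 0 ≤ α) (hβ : 0 ≤ β) (hγ : 0 ≤ γ) (hδ : 0 ≤ δ)
    (hpos : 0 < α + β + γ + δ) (he : α • x p + β • a j = γ • x q + δ • a k) : Rel F x a I j k := by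
  have n1 : x q ≠ a j := by
    intro hc
    have := h.xlt hf (hI q hq)
    rw [hc, hI j hj] at this
    exact lt_irrefl _ this
  have n2 : x p ≠ a k := by
    intro hc
    have := h.xlt hf (hI p hp)
    rw [hc, hI k hk] at this
    exact lt_irrefl _ this
  obtain ⟨_, _, _, _, _, g, hg, g1, g2, g3, g4⟩ :=
    h.cross hpq hjk hpj hqk n1 n2 hα hβ hγ hδ hpos he
  exact ⟨hjk, g, hg, g3, g4, p, hp, g1⟩

theorem Rel.symm {I : Finset ι} {j k : ι} (h : Rel F x a I j k) : Rel F x a I k j := by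
  obtain ⟨h1, g, hg, h2, h3, h4⟩ := h
  exact ⟨h1.symm, g, hg, h3, h2, h4⟩

/-- among three `a i` of a face which contains two more, two are related -/
theorem Cfg.five (h : Cfg F x a) (hE : Module.finrank ℝ E = 3) {f : E →ₗ[ℝ] ℝ} (hf : f ∈ F)
    {I : Finset ι} (hI : ∀ i ∈ I, f (a i) = 1) {p q : ι} (hp : p ∈ I) (hq : q ∈ I) (hpq : p ≠ q)
    {J : Fin 3 → ι} (hJ : Function.Injective J) (hJI : ∀ m, J m ∈ I) (hJp : ∀ m, J m ≠ p)
    (hJq : ∀ m, J m ≠ q) : ∃ m n, m ≠ n ∧ Rel F x a I (J m) (J n) := by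
  let P : Fin 3 → ι := ![p, q, q]
  let X : Fin 3 → E := fun m => if m = 2 then cen a I else x (P m)
  obtain ⟨i, k, hik, j, l, hjl, α, β, γ, δ, hα, hβ, hγ, hδ, hpos, he⟩ :=
    k33 hE X (fun m => a (J m))
  have hPI : ∀ m, P m ∈ I := by
    intro m; fin_cases m
    · exact hp
    · exact hq
    · exact hq
  have hPJ : ∀ m n, P m ≠ J n := by
    intro m n; fin_cases m
    · exact (hJp n).symm
    · exact (hJq n).symm
    · exact (hJq n).symm
  have hjl' : J j ≠ J l := fun hc => hjl (hJ hc)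
  by_cases hi : i = 2
  · have hk : k ≠ 2 := fun hc => hik (hi.trans hc.symm)
    simp only [X, hi, hk, if_true, if_false] at he
    exact (h.type1 hf hI (hPI k) (hJI l) (hJI j) (hPJ k l) hjl'.symm hγ hδ hα hβ (by linarith)
      he.symm).elim
  · by_cases hk : k = 2
    · simp only [X, hi, hk, if_true, if_false] at he
      exact (h.type1 hf hI (hPI i) (hJI j) (hJI l) (hPJ i j) hjl' hα hβ hγ hδ hpos he).elim
    · simp only [X, hi, hk, if_false] at he
      have hPP : P i ≠ P k := by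
        fin_cases i <;> fin_cases k
        · exact absurd rfl hik
        · exact hpq
        · exact absurd rfl hk
        · exact hpq.symm
        · exact absurd rfl hik
        · exact absurd rfl hk
        · exact absurd rfl hi
        · exact absurd rfl hi
        · exact absurd rfl hi
      exact ⟨j, l, hjl, h.type2 hf hI (hPI i) (hPI k) (hJI j) (hJI l) hPP (hPJ i j) (hPJ k l) hjl'
        hα hβ hγ hδ hpos he⟩

/-- every `a j` of a face is related to at most two others -/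
theorem Cfg.deg (h : Cfg F x a) (hE : Module.finrank ℝ E = 3) {f : E →ₗ[ℝ] ℝ} (hf : f ∈ F)
    {I : Finset ι} (hI : ∀ i ∈ I, f (a i) = 1) {j k l m : ι} (hj : j ∈ I) (hk : k ∈ I)
    (hl : l ∈ I) (hm : m ∈ I) (hkl : k ≠ l) (hkm : k ≠ m) (hlm : l ≠ m)
    (r1 : Rel F x a I j k) (r2 : Rel F x a I j l) (r3 : Rel F x a I j m) : False := by
  obtain ⟨n1, g1, hg1, a1, b1, p1, hp1, c1⟩ := r1
  obtain ⟨n2, g2, hg2, a2, b2, p2, hp2, c2⟩ := r2
  obtain ⟨n3, g3, hg3, a3, b3, p3, hp3, c3⟩ := r3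
  have key : ∀ {g : E →ₗ[ℝ] ℝ}, g ∈ F → ∀ {u v p : ι}, u ∈ I → v ∈ I → p ∈ I → j ≠ u → j ≠ v →
      u ≠ v → g (a j) = 1 → g (a u) = 1 → g (x p) = 1 → g (a v - a j) < 0 := by
    intro g hg u v p hu hv hp h1 h2 h3 h4 h5 h6
    have h7 : g (a v) ≠ 1 := by
      intro h8
      have := h.uniq hE h1 h2 h3 (hI j hj) (hI u hu) (hI v hv) h4 h5 h8
      exact h.h2 p g hg h6 (this ▸ hI p hp)
    have h9 := lt_of_le_of_ne (h.ha g hg v) h7
    rw [map_sub, h4]; linarith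
  obtain ⟨α, β, γ, δ, hne, he⟩ := dep4 hE (a k - a j) (a l - a j) (a m - a j) (a j)
  have hδ : δ = 0 := by
    have := congrArg f he
    simpa [map_add, map_smul, map_sub, hI j hj, hI k hk, hI l hl, hI m hm] using this
  rw [hδ, zero_smul, add_zero] at he
  obtain ⟨e1, e2, e3⟩ := signs (g₁ := g1) (g₂ := g2) (g₃ := g3) (by rw [he, map_zero])
    (by rw [he, map_zero]) (by rw [he, map_zero]) (by rw [map_sub, a1, b1, sub_self])
    (key hg1 hk hl hp1 n1 n2 hkl a1 b1 c1) (key hg1 hk hm hp1 n1 n3 hkm a1 b1 c1)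
    (key hg2 hl hk hp2 n2 n1 hkl.symm a2 b2 c2) (by rw [map_sub, a2, b2, sub_self])
    (key hg2 hl hm hp2 n2 n3 hlm a2 b2 c2) (key hg3 hm hk hp3 n3 n1 hkm.symm a3 b3 c3)
    (key hg3 hm hl hp3 n3 n2 hlm.symm a3 b3 c3) (by rw [map_sub, a3, b3, sub_self])
  exact hne ⟨e1, e2, e3, hδ⟩

/-- **Every face contains at most six of the `a i`.** -/
theorem Cfg.face (h : Cfg F x a) (hE : Module.finrank ℝ E = 3) {f : E →ₗ[ℝ] ℝ} (hf : f ∈ F)
    {I : Finset ι} (hI : ∀ i ∈ I, f (a i) = 1) : I.card ≤ 6 := by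
  classical
  by_contra hcon
  push Not at hcon
  let N : ι → Finset ι := fun j => I.filter (fun k => Rel F x a I j k)
  have hN : ∀ j ∈ I, (N j).card ≤ 2 := by
    intro j hj
    by_contra hc
    push Not at hc
    obtain ⟨k, hk, l, hl, m, hm, hkl, hkm, hlm⟩ := Finset.two_lt_card.1 hc
    simp only [N, Finset.mem_filter] at hk hl hm
    exact h.deg hE hf hI hj hk.1 hl.1 hm.1 hkl hkm hlm hk.2 hl.2 hm.2
  obtain ⟨j, hj⟩ : I.Nonempty := Finset.card_pos.1 (by omega)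
  have c1 : 0 < ((I.erase j) \ N j).card := by
    have := Finset.le_card_sdiff (N j) (I.erase j)
    rw [Finset.card_erase_of_mem hj] at this
    have := hN j hj
    omega
  obtain ⟨k, hk⟩ := Finset.card_pos.1 c1
  rw [Finset.mem_sdiff, Finset.mem_erase] at hk
  obtain ⟨⟨hkj, hkI⟩, hkN⟩ := hk
  have c2 : 0 < (((I.erase j).erase k) \ (N j ∪ N k)).card := by
    have h1 := Finset.le_card_sdiff (N j ∪ N k) ((I.erase j).erase k)
    rw [Finset.card_erase_of_mem (Finset.mem_erase.2 ⟨hkj, hkI⟩),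
      Finset.card_erase_of_mem hj] at h1
    have h2 := Finset.card_union_le (N j) (N k)
    have h3 := hN j hj
    have h4 := hN k hkI
    omega
  obtain ⟨l, hl⟩ := Finset.card_pos.1 c2
  rw [Finset.mem_sdiff, Finset.mem_erase, Finset.mem_erase, Finset.mem_union, not_or] at hl
  obtain ⟨⟨hlk, hlj, hlI⟩, hlN1, hlN2⟩ := hl
  have c3 : 1 < (((I.erase j).erase k).erase l).card := by
    rw [Finset.card_erase_of_mem (Finset.mem_erase.2 ⟨hlk, Finset.mem_erase.2 ⟨hlj, hlI⟩⟩),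
      Finset.card_erase_of_mem (Finset.mem_erase.2 ⟨hkj, hkI⟩), Finset.card_erase_of_mem hj]
    omega
  obtain ⟨p, hp, q, hq, hpq⟩ := Finset.one_lt_card.1 c3
  simp only [Finset.mem_erase] at hp hq
  obtain ⟨m, n, hmn, hr⟩ := h.five hE hf hI (p := p) (q := q) hp.2.2.2 hq.2.2.2 hpq
    (J := ![j, k, l])
    (by
      intro m n hmn
      fin_cases m <;> fin_cases n
      · rfl
      · exact absurd hmn hkj.symm
      · exact absurd hmn hlj.symm
      · exact absurd hmn hkj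
      · rfl
      · exact absurd hmn hlk.symm
      · exact absurd hmn hlj
      · exact absurd hmn hlk
      · rfl)
    (by intro m; fin_cases m; exacts [hj, hkI, hlI])
    (by intro m; fin_cases m; exacts [hp.2.2.1.symm, hp.2.1.symm, hp.1.symm])
    (by intro m; fin_cases m; exacts [hq.2.2.1.symm, hq.2.1.symm, hq.1.symm])
  have r1 : ¬ Rel F x a I j k := fun hc => hkN (Finset.mem_filter.2 ⟨hkI, hc⟩)
  have r2 : ¬ Rel F x a I j l := fun hc => hlN1 (Finset.mem_filter.2 ⟨hlI, hc⟩)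
  have r3 : ¬ Rel F x a I k l := fun hc => hlN2 (Finset.mem_filter.2 ⟨hlI, hc⟩)
  fin_cases m <;> fin_cases n
  · exact hmn rfl
  · exact r1 hr
  · exact r2 hr
  · exact r1 hr.symm
  · exact hmn rfl
  · exact r3 hr
  · exact r2 hr.symm
  · exact r3 hr.symm
  · exact hmn rfl

end Pool.Agent.Q157.IL
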