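import Mathlib
import Pool.Agent.Q157.IL.Face

set_option autoImplicit false
set_option linter.unusedSectionVars false

/-!
# The bound for configurations
-/

namespace Pool.Agent.Q157.IL

open Finset

variable {E : Type*} [AddCommGroup E] [Module ℝ E] [FiniteDimensional ℝ E]
variable {ι : Type*} {F : Set (E →ₗ[ℝ] ℝ)} {x a : ι → E}

/-- `a j` is attached to `x p` in a crossing with a segment from `x q` -/
def Bad (x a : ι → E) (p q j : ι) : Prop :=
  j ≠ p ∧ a j ≠ x p ∧ a j ≠ x q ∧ ∃ k, k ≠ j ∧ k ≠ q ∧ a k ≠ x p ∧ a k ≠ x q ∧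
    ∃ α β γ δ : ℝ, 0 ≤ α ∧ 0 ≤ β ∧ 0 ≤ γ ∧ 0 ≤ δ ∧ 0 < α + β + γ + δ ∧
      α • x p + β • a j = γ • x q + δ • a k

theorem Cfg.line (h : Cfg F x a) {p q j : ι} (hpq : p ≠ q) {s t : ℝ} (hst : s + t = 1)
    (he : a j = s • x p + t • x q) (n1 : a j ≠ x p) (n2 : a j ≠ x q) : 0 < s ∧ 0 < t := by
  constructor
  · by_contra hc
    push Not at hc
    rcases hc.lt_or_eq with h1 | h1
    · refine h.xbet hpq (fun f hf => h.ha f hf j) (neg_pos.2 h1) zero_le_one (s := -s) (t := 1) ?_
      have h2 : -s + 1 = t := by linarith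
      rw [h2, one_smul, he, neg_smul]; abel
    · have h2 : t = 1 := by linarith
      rw [h1, h2, zero_smul, zero_add, one_smul] at he
      exact n2 he
  · by_contra hc
    push Not at hc
    rcases hc.lt_or_eq with h1 | h1
    · refine h.xbet hpq.symm (fun f hf => h.ha f hf j) (neg_pos.2 h1) zero_le_one (s := -t)
        (t := 1) ?_
      have h2 : -t + 1 = s := by linarith
      rw [h2, one_smul, he, neg_smul]; abel
    · have h2 : s = 1 := by linarith
      rw [h1, h2, zero_smul, add_zero, one_smul] at he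
      exact n1 he

theorem Cfg.bad (h : Cfg F x a) {p q j : ι} (hpq : p ≠ q) (hb : Bad x a p q j) :
    ∃ f ∈ F, f (x p) = 1 ∧ f (x q) = 1 ∧ f (a j) = 1 ∧
      ∀ α β γ : ℝ, α • x p + β • x q + γ • a j = 0 → α = 0 ∧ β = 0 ∧ γ = 0 := by
  obtain ⟨b1, b2, b3, k, b4, b5, b6, b7, α, β, γ, δ, hα, hβ, hγ, hδ, hpos, he⟩ := hb
  obtain ⟨hα', hβ', hγ', hδ', hsum, f, hf, f1, f2, f3, f4⟩ :=
    h.cross hpq b4.symm b1.symm b5.symm b3.symm b6.symm hα hβ hγ hδ hpos he
  refine ⟨f, hf, f1, f2, f3, ?_⟩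
  intro α' β' γ' h0
  have h1 := congrArg f h0
  simp only [map_add, map_smul, smul_eq_mul, f1, f2, f3, mul_one, map_zero] at h1
  by_cases hγ0 : γ' = 0
  · rw [hγ0, zero_smul, add_zero] at h0
    have h2 : β' = -α' := by linarith
    rw [h2, neg_smul, ← sub_eq_add_neg, ← smul_sub] at h0
    rcases smul_eq_zero.1 h0 with h3 | h3
    · exact ⟨h3, by rw [h2, h3, neg_zero], hγ0⟩
    · exact absurd (sub_eq_zero.1 h3) (h.xne hpq)
  · exfalso
    -- `a j` and `a k` on the line through `x p` and `x q`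
    set s := -α' / γ' with hs
    set t := -β' / γ' with ht
    have hst : s + t = 1 := by
      rw [hs, ht]; field_simp; linarith
    have e1 : a j = s • x p + t • x q := by
      have h2 : a j = γ'⁻¹ • (γ' • a j) := by rw [smul_smul, inv_mul_cancel₀ hγ0, one_smul]
      have h3 : γ' • a j = (-α') • x p + (-β') • x q := by
        rw [neg_smul, neg_smul]
        have : γ' • a j - (-(α' • x p) + -(β' • x q)) = 0 := by rw [← h0]; abel
        exact sub_eq_zero.1 this
      rw [h2, h3, smul_add, smul_smul, smul_smul, hs, ht]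
      congr 1 <;> congr 1 <;> field_simp
    set s' := (α + β * s) / δ with hs'
    set t' := (β * t - γ) / δ with ht'
    have hst' : s' + t' = 1 := by
      rw [hs', ht', ← add_div, div_eq_one_iff_eq hδ'.ne']
      have : β * s + β * t = β := by rw [← mul_add, hst, mul_one]
      linarith
    have e2 : a k = s' • x p + t' • x q := by
      have h2 : a k = δ⁻¹ • (δ • a k) := by rw [smul_smul, inv_mul_cancel₀ hδ'.ne', one_smul]
      have h3 : δ • a k = (α + β * s) • x p + (β * t - γ) • x q := by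
        have : δ • a k = α • x p + β • a j - γ • x q := by rw [he]; abel
        rw [this, e1]
        module
      rw [h2, h3, smul_add, smul_smul, smul_smul, hs', ht']
      congr 1 <;> congr 1 <;> field_simp
    obtain ⟨s1, t1⟩ := h.line hpq hst e1 b2 b3
    obtain ⟨s2, t2⟩ := h.line hpq hst' e2 b6 b7
    rcases lt_trichotomy s s' with h4 | h4 | h4
    · refine h.abet b4 (y := x q) (fun f hf => h.hx f hf q) s1 (sub_nonneg.2 h4.le) ?_
      have h5 : s + (s' - s) = s' := by ring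
      rw [h5, e1, e2]
      have h6 : t = 1 - s := by linarith
      have h7 : t' = 1 - s' := by linarith
      rw [h6, h7]
      module
    · refine h.ane b4 ?_
      rw [e1, e2, h4]
      congr 2; linarith
    · refine h.abet b4.symm (y := x q) (fun f hf => h.hx f hf q) s2 (sub_nonneg.2 h4.le) ?_
      have h5 : s' + (s - s') = s := by ring
      rw [h5, e1, e2]
      have h6 : t = 1 - s := by linarith
      have h7 : t' = 1 - s' := by linarith
      rw [h6, h7]
      module

/-- at most two faces contain `x p`, `x q` and some `a j` -/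
theorem Cfg.badcard (h : Cfg F x a) (hE : Module.finrank ℝ E = 3) {p q : ι} (hpq : p ≠ q)
    (S : Finset ι) (hS : ∀ j ∈ S, Bad x a p q j) : S.card ≤ 12 := by
  classical
  by_contra hcon
  push Not at hcon
  have hex : ∀ j ∈ S, ∃ f ∈ F, f (x p) = 1 ∧ f (x q) = 1 ∧ f (a j) = 1 ∧
      ∀ g : E →ₗ[ℝ] ℝ, g (x p) = 1 → g (x q) = 1 → g (a j) = 1 → g = f := by
    intro j hj
    obtain ⟨f, hf, f1, f2, f3, f4⟩ := h.bad hpq (hS j hj)
    exact ⟨f, hf, f1, f2, f3, fun g g1 g2 g3 => eq_of_three hE f4 (by rw [f1, g1])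
      (by rw [f2, g2]) (by rw [f3, g3])⟩
  have hI : ∀ f ∈ F, (S.filter (fun j => f (a j) = 1)).card ≤ 6 := by
    intro f hf
    exact h.face hE hf (fun i hi => (Finset.mem_filter.1 hi).2)
  obtain ⟨j1, hj1⟩ : S.Nonempty := Finset.card_pos.1 (by omega)
  obtain ⟨f1, hf1, a1, b1, c1, u1⟩ := hex j1 hj1
  obtain ⟨j2, hj2, hn2⟩ : ∃ j ∈ S, f1 (a j) ≠ 1 := by
    by_contra hc
    push Not at hc
    have := hI f1 hf1
    rw [Finset.filter_true_of_mem hc] at this
    omega
  obtain ⟨f2, hf2, a2, b2, c2, u2⟩ := hex j2 hj2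
  obtain ⟨j3, hj3, hn3, hn4⟩ : ∃ j ∈ S, f1 (a j) ≠ 1 ∧ f2 (a j) ≠ 1 := by
    by_contra hc
    push Not at hc
    have h1 : S ⊆ S.filter (fun j => f1 (a j) = 1) ∪ S.filter (fun j => f2 (a j) = 1) := by
      intro j hj
      rw [Finset.mem_union, Finset.mem_filter, Finset.mem_filter]
      by_cases h2 : f1 (a j) = 1
      · exact Or.inl ⟨hj, h2⟩
      · exact Or.inr ⟨hj, hc j hj h2⟩
    have h3 := (Finset.card_le_card h1).trans (Finset.card_union_le _ _)
    have h4 := hI f1 hf1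
    have h5 := hI f2 hf2
    omega
  obtain ⟨f3, hf3, a3, b3, c3, u3⟩ := hex j3 hj3
  have m1 : f2 (a j1) ≠ 1 := fun hc => hn2 (by rw [← u1 f2 a2 b2 hc]; exact c2)
  have m2 : f3 (a j1) ≠ 1 := fun hc => hn3 (by rw [← u1 f3 a3 b3 hc]; exact c3)
  have m3 : f3 (a j2) ≠ 1 := fun hc => hn4 (by rw [← u2 f3 a3 b3 hc]; exact c3)
  have key : ∀ {f : E →ₗ[ℝ] ℝ}, f ∈ F → ∀ {j : ι}, f (x p) = 1 → f (a j) ≠ 1 →
      f (a j - x p) < 0 := by
    intro f hf j h1 h2
    have := lt_of_le_of_ne (h.ha f hf j) h2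
    rw [map_sub, h1]; linarith
  obtain ⟨α, β, γ, δ, hne, he⟩ := dep4 hE (a j1 - x p) (a j2 - x p) (a j3 - x p) (x q - x p)
  have hz : ∀ {f : E →ₗ[ℝ] ℝ}, f (x p) = 1 → f (x q) = 1 →
      f (α • (a j1 - x p) + β • (a j2 - x p) + γ • (a j3 - x p)) = 0 := by
    intro f h1 h2
    have h3 := congrArg f he
    rw [map_add, map_zero, map_smul, map_sub, h1, h2, sub_self, smul_zero, add_zero] at h3
    exact h3
  obtain ⟨e1, e2, e3⟩ := signs (hz a1 b1) (hz a2 b2) (hz a3 b3) (by rw [map_sub, a1, c1, sub_self])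
    (key hf1 a1 hn2) (key hf1 a1 hn3) (key hf2 a2 m1) (by rw [map_sub, a2, c2, sub_self])
    (key hf2 a2 hn4) (key hf3 a3 m2) (key hf3 a3 m3) (by rw [map_sub, a3, c3, sub_self])
  rw [e1, e2, e3, zero_smul, zero_smul, zero_smul, zero_add, zero_add, zero_add] at he
  rcases smul_eq_zero.1 he with h4 | h4
  · exact hne ⟨e1, e2, e3, h4⟩
  · exact h.xne hpq (sub_eq_zero.1 h4).symm

/-- **The bound.** -/
theorem Cfg.card_le [Fintype ι] (h : Cfg F x a) (hE : Module.finrank ℝ E = 3) :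
    Fintype.card ι ≤ 80 := by
  classical
  by_contra hcon
  push Not at hcon
  obtain ⟨P, hP⟩ : ∃ P : Fin 3 → ι, Function.Injective P := by
    have : Nonempty (Fin 3 ↪ ι) := Function.Embedding.nonempty_of_card_le (by simp; omega)
    obtain ⟨e⟩ := this
    exact ⟨e, e.injective⟩
  let C : Finset ι := univ.filter (fun j => ∃ m, a j = x (P m))
  have hC : C.card ≤ 3 := by
    have h1 : C ⊆ (univ : Finset (Fin 3)).biUnion
        (fun m => univ.filter (fun j => a j = x (P m))) := by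
      intro j hj
      obtain ⟨m, hm⟩ := (Finset.mem_filter.1 hj).2
      exact Finset.mem_biUnion.2 ⟨m, Finset.mem_univ _, Finset.mem_filter.2 ⟨Finset.mem_univ _, hm⟩⟩
    refine (Finset.card_le_card h1).trans ?_
    refine (Finset.card_biUnion_le).trans ?_
    calc ∑ m : Fin 3, (univ.filter (fun j => a j = x (P m))).card ≤ ∑ m : Fin 3, 1 := by
          apply Finset.sum_le_sum
          intro m _
          apply Finset.card_le_one.2
          intro i hi j hj
          by_contra hne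
          exact h.ane hne ((Finset.mem_filter.1 hi).2.trans (Finset.mem_filter.1 hj).2.symm)
      _ = 3 := by simp
  let T : Finset (Fin 3 × Fin 3) := univ.filter (fun m => m.1 ≠ m.2)
  have hT : T.card = 6 := by decide
  let B : Finset ι := T.biUnion (fun m => univ.filter (fun j => Bad x a (P m.1) (P m.2) j))
  have hB : B.card ≤ 72 := by
    refine (Finset.card_biUnion_le).trans ?_
    calc ∑ m ∈ T, (univ.filter (fun j => Bad x a (P m.1) (P m.2) j)).card ≤ ∑ m ∈ T, 12 := by
          apply Finset.sum_le_sum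
          intro m hm
          exact h.badcard hE (fun hc => (Finset.mem_filter.1 hm).2 (hP hc)) _
            (fun j hj => (Finset.mem_filter.1 hj).2)
      _ = 72 := by rw [Finset.sum_const, hT]; rfl
  let Q : Finset ι := univ.image P
  have hQ : Q.card ≤ 3 := by
    refine Finset.card_image_le.trans ?_
    simp
  have hR : 3 ≤ (univ \ (B ∪ C ∪ Q)).card := by
    have h1 := Finset.le_card_sdiff (B ∪ C ∪ Q) univ
    have h2 := Finset.card_union_le (B ∪ C) Q
    have h3 := Finset.card_union_le B C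
    rw [Finset.card_univ] at h1
    omega
  obtain ⟨J, hJ, hJm⟩ : ∃ J : Fin 3 → ι, Function.Injective J ∧
      ∀ m, J m ∈ univ \ (B ∪ C ∪ Q) := by
    obtain ⟨R, hR1, hR2⟩ := Finset.exists_subset_card_eq hR
    let e := (Finset.equivFinOfCardEq hR2).symm
    exact ⟨fun m => (e m : ι), fun m n hmn => e.injective (Subtype.ext hmn),
      fun m => hR1 (e m).2⟩
  have hJ1 : ∀ m, J m ∉ B := fun m hc => by
    have := hJm m
    simp [hc] at this
  have hJ2 : ∀ m, J m ∉ C := fun m hc => by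
    have := hJm m
    simp [hc] at this
  have hJ3 : ∀ m, J m ∉ Q := fun m hc => by
    have := hJm m
    simp [hc] at this
  have hJ4 : ∀ m n, a (J m) ≠ x (P n) := fun m n hc =>
    hJ2 m (Finset.mem_filter.2 ⟨Finset.mem_univ _, n, hc⟩)
  have hJ5 : ∀ m n, J m ≠ P n := fun m n hc =>
    hJ3 m (Finset.mem_image.2 ⟨n, Finset.mem_univ _, hc.symm⟩)
  obtain ⟨i, k, hik, j, l, hjl, α, β, γ, δ, hα, hβ, hγ, hδ, hpos, he⟩ :=
    k33 hE (fun m => x (P m)) (fun m => a (J m))
  refine hJ1 j (Finset.mem_biUnion.2 ⟨(i, k), Finset.mem_filter.2 ⟨Finset.mem_univ _, hik⟩,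
    Finset.mem_filter.2 ⟨Finset.mem_univ _, ?_⟩⟩)
  exact ⟨hJ5 j i, hJ4 j i, hJ4 j k, J l, fun hc => hjl (hJ hc.symm), hJ5 l k, hJ4 l i, hJ4 l k,
    α, β, γ, δ, hα, hβ, hγ, hδ, hpos, he⟩

end Pool.Agent.Q157.IL
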