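import Mathlib
import Pool.Agent.Q157.IL.Bad

set_option autoImplicit false

/-!
# Primitive inner illuminating sets in 3-space have at most 80 points
-/

namespace Pool.Agent.Q157.IL

open Finset

abbrev E3 := EuclideanSpace ℝ (Fin 3)

/-- `a` illuminates `x` from inside -/
def Ill (K : Set E3) (a x : E3) : Prop :=
  ∃ ε : ℝ, 0 < ε ∧ ε < 1 ∧ (1 - ε) • x + ε • a ∈ interior K

/-- functionals (centred at `o`) with values at most one on `K` -/
def Fun1 (K : Set E3) (o : E3) : Set (E3 →ₗ[ℝ] ℝ) := {f | ∀ y ∈ K, f (y - o) ≤ 1}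

theorem exists_support {K : Set E3} (hK : IsCompact K) (hc : Convex ℝ K) {o : E3}
    (ho : o ∈ interior K) {x a : E3} (hx : x ∈ K) (ha : a ∈ K) (h : ¬ Ill K a x) :
    ∃ f ∈ Fun1 K o, f (x - o) = 1 ∧ f (a - o) = 1 := by
  set z : E3 := (1 - (1/2 : ℝ)) • x + (1/2 : ℝ) • a with hz
  have hzn : z ∉ interior K := fun hc => h ⟨1/2, by norm_num, by norm_num, hc⟩
  obtain ⟨f, hf⟩ := geometric_hahn_banach_open_point hc.interior isOpen_interior hzn
  have hle : ∀ y ∈ K, f y ≤ f z := by
    intro y hy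
    have h1 : y ∈ closure (interior K) := by
      rw [hc.closure_interior_eq_closure_of_nonempty_interior ⟨o, ho⟩]
      exact subset_closure hy
    have h2 : IsClosed {y : E3 | f y ≤ f z} := isClosed_le f.continuous continuous_const
    exact closure_minimal (fun y hy => (hf y hy).le) h2 h1
  have hpos : 0 < f z - f o := by linarith [hf o ho]
  refine ⟨(f z - f o)⁻¹ • f.toLinearMap, ?_, ?_⟩
  · intro y hy
    simp only [LinearMap.smul_apply, smul_eq_mul]
    rw [inv_mul_le_iff₀ hpos, mul_one]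
    have := hle y hy
    simp only [ContinuousLinearMap.coe_coe, map_sub]
    linarith
  · have h1 := hle x hx
    have h2 := hle a ha
    have h3 : f z = (1/2) * f x + (1/2) * f a := by
      rw [hz, map_add, map_smul, map_smul]; norm_num
    simp only [LinearMap.smul_apply, smul_eq_mul, ContinuousLinearMap.coe_coe, map_sub]
    constructor <;> rw [← mul_sub, inv_mul_eq_one₀ hpos.ne'] <;> linarith

theorem not_support {K : Set E3} {o : E3} (ho : o ∈ interior K) {x a : E3} (h : Ill K a x)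
    {f : E3 →ₗ[ℝ] ℝ} (hf : f ∈ Fun1 K o) (h1 : f (x - o) = 1) (h2 : f (a - o) = 1) : False := by
  obtain ⟨ε, he0, he1, hw⟩ := h
  set w : E3 := (1 - ε) • x + ε • a with hwd
  have h3 : f (w - o) = 1 := by
    have : w - o = (1 - ε) • (x - o) + ε • (a - o) := by rw [hwd]; module
    rw [this, map_add, map_smul, map_smul, h1, h2]; simp
  have hcont : Continuous (fun t : ℝ => w + t • (w - o)) := by fun_prop
  have h4 : (fun t : ℝ => w + t • (w - o)) ⁻¹' (interior K) ∈ nhds (0:ℝ) := by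
    apply (isOpen_interior.preimage hcont).mem_nhds
    simpa using hw
  rw [Metric.mem_nhds_iff] at h4
  obtain ⟨r, hr, hr2⟩ := h4
  have h5 : (r/2) ∈ Metric.ball (0:ℝ) r := by
    rw [Metric.mem_ball, dist_zero_right, Real.norm_eq_abs, abs_of_pos (by linarith)]
    linarith
  have h6 := hr2 h5
  have h7 := hf _ (interior_subset h6)
  have h8 : w + (r/2) • (w - o) - o = (1 + r/2) • (w - o) := by module
  rw [h8, map_smul, h3, smul_eq_mul] at h7
  linarith

theorem main (K : Set E3) (hK : IsCompact K) (hc : Convex ℝ K) (hi : (interior K).Nonempty)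
    (A : Set E3)
    (hA : A ⊆ frontier K ∧ ∀ x ∈ frontier K, ∃ a ∈ A, ∃ ε : ℝ, 0 < ε ∧ ε < 1 ∧
      (1 - ε) • x + ε • a ∈ interior K)
    (hprim : ∀ B : Set E3, B ⊆ A → B ≠ A → ¬ (B ⊆ frontier K ∧ ∀ x ∈ frontier K, ∃ b ∈ B,
      ∃ ε : ℝ, 0 < ε ∧ ε < 1 ∧ (1 - ε) • x + ε • b ∈ interior K)) :
    A.encard ≤ ((80 : ℕ) : ℕ∞) := by
  classical
  obtain ⟨o, ho⟩ := hi
  have hfr : frontier K ⊆ K := hK.isClosed.frontier_subset
  have hex : ∀ a ∈ A, ∃ x ∈ frontier K, Ill K a x ∧ ∀ b ∈ A, b ≠ a → ¬ Ill K b x := by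
    intro a ha
    have h1 := hprim (A \ {a}) Set.sdiff_subset (by
      intro he
      have : a ∈ A \ {a} := by rw [he]; exact ha
      exact this.2 rfl)
    rw [not_and] at h1
    have h2 := h1 (Set.sdiff_subset.trans hA.1)
    rw [not_forall] at h2
    obtain ⟨x, h3⟩ := h2
    rw [Classical.not_imp] at h3
    obtain ⟨hx, h4⟩ := h3
    have h5 : ∀ b ∈ A, b ≠ a → ¬ Ill K b x := fun b hb hba hI => h4 ⟨b, ⟨hb, hba⟩, hI⟩
    obtain ⟨a', ha', hI⟩ := hA.2 x hx
    have h6 : a' = a := by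
      by_contra hne
      exact h5 a' ha' hne hI
    rw [h6] at hI
    exact ⟨x, hx, hI, h5⟩
  by_contra hcon
  push Not at hcon
  obtain ⟨S, hSA, hS⟩ := Set.exists_subset_encard_eq (k := ((81 : ℕ) : ℕ∞)) (s := A) (by
    have : ((80 : ℕ) : ℕ∞) + 1 ≤ A.encard := Order.add_one_le_of_lt hcon
    exact_mod_cast this)
  have hSf : S.Finite := Set.finite_of_encard_eq_coe hS
  have hfin : Fintype S := hSf.fintype
  have hcard : Fintype.card S = 81 := by
    have h1 : S.encard = (Fintype.card S : ℕ∞) := by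
      rw [Set.encard_eq_coe_toFinset_card, Set.toFinset_card]
    rw [hS] at h1
    exact_mod_cast h1.symm
  choose! X hX1 hX2 hX3 using hex
  have hcfg : Cfg (Fun1 K o) (fun i : S => X i - o) (fun i : S => (i : E3) - o) := by
    refine ⟨?_, ?_, ?_, ?_⟩
    · intro f hf i
      exact hf _ (hfr (hX1 i (hSA i.2)))
    · intro f hf i
      exact hf _ (hfr (hA.1 (hSA i.2)))
    · intro i j hij
      refine exists_support hK hc ho (hfr (hX1 i (hSA i.2))) (hfr (hA.1 (hSA j.2))) ?_
      exact hX3 i (hSA i.2) j (hSA j.2) (fun hc => hij (Subtype.ext hc.symm))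
    · intro i f hf h1 h2
      exact not_support ho (hX2 i (hSA i.2)) hf h1 h2
  have h80 := hcfg.card_le (by simp)
  omega

end Pool.Agent.Q157.IL
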